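import Mathlib

namespace Pool.Agent.H.MP_e22fa6_co
open Finset

noncomputable def FL (ν τ σ : ℝ) : ℝ := (τ ^ 2 + τ) / σ - τ ^ 2 / ν
noncomputable def F (ν τ σ : ℝ) : ℝ := if τ ≤ σ then FL ν τ σ else FL ν (ν - τ) (ν - σ)

lemma F_left {ν τ σ : ℝ} (h : τ ≤ σ) : F ν τ σ = FL ν τ σ := by simp [F, h]

lemma F_right {ν τ σ : ℝ} (h : σ ≤ τ) (h0 : 0 < σ) (h1 : σ < ν) :
    F ν τ σ = FL ν (ν - τ) (ν - σ) := by
  unfold F
  split_ifs with h'
  · have : τ = σ := le_antisymm h' h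
    subst this
    unfold FL
    have : ν - τ ≠ 0 := by linarith
    have : ν ≠ 0 := by linarith
    field_simp
    ring
  · rfl

lemma FL_nonneg {ν τ σ : ℝ} (h : 0 ≤ τ) (h0 : 0 < σ) (h1 : σ ≤ ν) : 0 ≤ FL ν τ σ := by
  unfold FL
  have h2 : τ ^ 2 / ν ≤ τ ^ 2 / σ := div_le_div_of_nonneg_left (by positivity) h0 h1
  have h3 : 0 ≤ τ / σ := by positivity
  rw [add_div]; linarith

lemma F_nonneg {ν τ σ : ℝ} (h : 0 ≤ τ) (h' : τ ≤ ν) (h0 : 0 < σ) (h1 : σ < ν) : 0 ≤ F ν τ σ := by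
  unfold F
  split_ifs
  · exact FL_nonneg h h0 h1.le
  · exact FL_nonneg (by linarith) (by linarith) (by linarith)

lemma FL_anti {ν τ σ s : ℝ} (h : 0 ≤ τ) (h0 : 0 < s) (h1 : s ≤ σ) : FL ν τ σ ≤ FL ν τ s := by
  unfold FL
  have h2 : (τ ^ 2 + τ) / σ ≤ (τ ^ 2 + τ) / s := div_le_div_of_nonneg_left (by positivity) h0 h1
  linarith

lemma FL_conv {ν τ a b μ : ℝ} (h : 0 ≤ τ) (ha : 0 < a) (hb : 0 < b) (h0 : 0 ≤ μ) (h1 : μ ≤ 1) :
    FL ν τ ((1 - μ) * a + μ * b) ≤ (1 - μ) * FL ν τ a + μ * FL ν τ b := by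
  unfold FL
  have hs : 0 < (1 - μ) * a + μ * b := by
    rcases eq_or_lt_of_le h0 with h | h
    · subst h; simpa using ha
    · nlinarith [mul_pos h hb, mul_nonneg (sub_nonneg.2 h1) ha.le]
  have key : 1 / ((1 - μ) * a + μ * b) ≤ (1 - μ) / a + μ / b := by
    rw [div_add_div _ _ ha.ne' hb.ne', div_le_div_iff₀ hs (mul_pos ha hb)]
    nlinarith [mul_nonneg (mul_nonneg h0 (sub_nonneg.2 h1)) (sq_nonneg (a - b))]
  have hc : 0 ≤ τ ^ 2 + τ := by positivity
  have := mul_le_mul_of_nonneg_left key hc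
  have e1 : (τ ^ 2 + τ) / ((1 - μ) * a + μ * b) = (τ ^ 2 + τ) * (1 / ((1 - μ) * a + μ * b)) := by
    ring
  rw [e1]
  have e2 : (1 - μ) * ((τ ^ 2 + τ) / a - τ ^ 2 / ν) + μ * ((τ ^ 2 + τ) / b - τ ^ 2 / ν)
      = (τ ^ 2 + τ) * ((1 - μ) / a + μ / b) - τ ^ 2 / ν := by ring
  rw [e2]; linarith

noncomputable def Phi (ν : ℕ) (g : ℕ → ℝ) (σ : ℝ) : ℝ := ∑ τ ∈ range (ν + 1), g τ * F ν τ σ

lemma Phi_le (ν : ℕ) (g : ℕ → ℝ) (hg : ∀ τ, 0 ≤ g τ) (M : ℝ) (hM0 : 0 ≤ M)
    (hM : ∀ m : ℕ, 1 ≤ m → m < ν → 0 < g m → Phi ν g m ≤ M) (σ : ℝ) (h0 : 0 < σ) (h1 : σ < ν) :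
    Phi ν g σ ≤ M := by
  classical
  set T := (range (ν + 1)).filter (fun τ => 1 ≤ τ ∧ τ < ν ∧ 0 < g τ) with hT
  have hPT : ∀ s : ℝ, 0 < s → s < ν → Phi ν g s = ∑ τ ∈ T, g τ * F ν τ s := by
    intro s hs0 hs1
    rw [hT, Phi, sum_filter]
    refine sum_congr rfl fun τ hτ => ?_
    split_ifs with hc
    · rfl
    · have hτ' : τ ≤ ν := by simpa [Nat.lt_succ_iff] using hτ
      by_cases a0 : τ = 0
      · subst a0; simp [F, hs0.le, FL]
      by_cases a1 : τ = ν
      · subst a1; rw [F_right hs1.le hs0 hs1]; simp [FL]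
      have : ¬ 0 < g τ := fun h => hc ⟨by omega, by omega, h⟩
      have : g τ = 0 := le_antisymm (not_lt.1 this) (hg τ)
      simp [this]
  have hTm : ∀ τ ∈ T, 1 ≤ τ ∧ τ < ν ∧ 0 < g τ := fun τ hτ => (mem_filter.1 hτ).2
  have hTr : ∀ τ ∈ T, (0 : ℝ) < τ ∧ (τ : ℝ) < ν := fun τ hτ =>
    ⟨by exact_mod_cast (hTm τ hτ).1, by exact_mod_cast (hTm τ hτ).2.1⟩
  have hTM : ∀ m ∈ T, ∑ τ ∈ T, g τ * F ν τ m ≤ M := fun m hm => by
    rw [← hPT m (hTr m hm).1 (hTr m hm).2]
    exact hM m (hTm m hm).1 (hTm m hm).2.1 (hTm m hm).2.2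
  rw [hPT σ h0 h1]
  by_cases e1 : (T.filter (fun τ : ℕ => (τ : ℝ) ≤ σ)).Nonempty
  · obtain ⟨m, hm, hmax⟩ := exists_max_image _ (fun τ : ℕ => (τ : ℝ)) e1
    obtain ⟨hmT, hmσ⟩ := mem_filter.1 hm
    by_cases e2 : (T.filter (fun τ : ℕ => σ < (τ : ℝ))).Nonempty
    · obtain ⟨k, hk, hmin⟩ := exists_min_image _ (fun τ : ℕ => (τ : ℝ)) e2
      obtain ⟨hkT, hkσ⟩ := mem_filter.1 hk
      have hmk : (0 : ℝ) < k - m := by linarith
      set μ := (σ - m) / (k - m) with hμ
      have μ0 : 0 ≤ μ := div_nonneg (by linarith) hmk.le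
      have μ1 : μ ≤ 1 := by rw [hμ, div_le_one hmk]; linarith
      have hσ : σ = (1 - μ) * m + μ * k := by rw [hμ]; field_simp; ring
      have hσ' : ν - σ = (1 - μ) * (ν - m) + μ * (ν - k) := by rw [hσ]; ring
      calc ∑ τ ∈ T, g τ * F ν τ σ
          ≤ ∑ τ ∈ T, ((1 - μ) * (g τ * F ν τ m) + μ * (g τ * F ν τ k)) := by
            refine sum_le_sum fun τ hτ => ?_
            have : F ν τ σ ≤ (1 - μ) * F ν τ m + μ * F ν τ k := by
              by_cases c : (τ : ℝ) ≤ σ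
              · have c1 : (τ : ℝ) ≤ m := hmax τ (mem_filter.2 ⟨hτ, c⟩)
                rw [F_left c, F_left c1, F_left (by linarith : (τ : ℝ) ≤ k)]
                conv_lhs => rw [hσ]
                exact FL_conv (hTr τ hτ).1.le (hTr m hmT).1 (hTr k hkT).1 μ0 μ1
              · have c' := not_le.1 c
                have c1 : (k : ℝ) ≤ τ := hmin τ (mem_filter.2 ⟨hτ, c'⟩)
                rw [F_right c'.le h0 h1, F_right c1 (hTr k hkT).1 (hTr k hkT).2,
                  F_right (by linarith : (m : ℝ) ≤ τ) (hTr m hmT).1 (hTr m hmT).2, hσ']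
                exact FL_conv (by linarith [(hTr τ hτ).2]) (by linarith [(hTr m hmT).2])
                  (by linarith [(hTr k hkT).2]) μ0 μ1
            nlinarith [mul_le_mul_of_nonneg_left this (hg τ)]
        _ = (1 - μ) * ∑ τ ∈ T, g τ * F ν τ m + μ * ∑ τ ∈ T, g τ * F ν τ k := by
            rw [sum_add_distrib, ← mul_sum, ← mul_sum]
        _ ≤ M := by
            nlinarith [mul_le_mul_of_nonneg_left (hTM m hmT) (sub_nonneg.2 μ1),
              mul_le_mul_of_nonneg_left (hTM k hkT) μ0]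
    · refine le_trans (sum_le_sum fun τ hτ => ?_) (hTM m hmT)
      have c : (τ : ℝ) ≤ σ := by
        by_contra c
        exact e2 ⟨τ, mem_filter.2 ⟨hτ, not_le.1 c⟩⟩
      have c1 : (τ : ℝ) ≤ m := hmax τ (mem_filter.2 ⟨hτ, c⟩)
      rw [F_left c, F_left c1]
      exact mul_le_mul_of_nonneg_left (FL_anti (hTr τ hτ).1.le (hTr m hmT).1 hmσ) (hg τ)
  · by_cases e2 : T.Nonempty
    · obtain ⟨k, hkT, hmin⟩ := exists_min_image _ (fun τ : ℕ => (τ : ℝ)) e2
      have hall : ∀ τ ∈ T, σ < (τ : ℝ) := fun τ hτ => by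
        by_contra c
        exact e1 ⟨τ, mem_filter.2 ⟨hτ, not_lt.1 c⟩⟩
      refine le_trans (sum_le_sum fun τ hτ => ?_) (hTM k hkT)
      rw [F_right (hall τ hτ).le h0 h1, F_right (hmin τ hτ) (hTr k hkT).1 (hTr k hkT).2]
      exact mul_le_mul_of_nonneg_left (FL_anti (by linarith [(hTr τ hτ).2])
        (by linarith [(hTr k hkT).2]) (by linarith [hall k hkT])) (hg τ)
    · rw [not_nonempty_iff_eq_empty.1 e2]; simpa using hM0

lemma tent_pt {ν τ σ l r V H : ℝ} (hl : 0 ≤ l) (hlτ : l < τ) (hτσ : τ ≤ σ) (hσr : σ < r)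
    (hr : r ≤ ν) (hH : H * (r - l) = (σ - l) * (r - σ)) (hV0 : 0 ≤ V)
    (hV : V * (σ - l) ≤ H * (τ - l)) : V ^ 2 + V ≤ H * FL ν τ σ := by
  have hσ : 0 < σ := by linarith
  have hν : 0 < ν := by linarith
  have hσl : 0 < σ - l := by linarith
  have hrl : 0 < r - l := by linarith
  have hH0 : 0 ≤ H := by
    by_contra c
    have := mul_neg_of_neg_of_pos (not_le.1 c) hrl
    nlinarith [mul_pos hσl (sub_pos.2 hσr)]
  set q := τ / σ with hq
  have hτq : τ = q * σ := by rw [hq]; field_simp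
  have q0 : 0 ≤ q := div_nonneg (by linarith) hσ.le
  have q1 : q ≤ 1 := by rw [hq, div_le_one hσ]; exact hτσ
  have hVq : V ≤ H * q := by
    have : H * (τ - l) ≤ H * q * (σ - l) := by
      rw [mul_assoc]
      refine mul_le_mul_of_nonneg_left ?_ hH0
      rw [hτq]; nlinarith
    exact le_of_mul_le_mul_right (hV.trans this) hσl
  have hHle : H * ν ≤ σ * (ν - σ) := by
    refine le_of_mul_le_mul_right ?_ hrl
    have : H * ν * (r - l) = (σ - l) * (r - σ) * ν := by rw [← hH]; ring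
    rw [this]
    have a1 : 0 ≤ l * ((r - σ) * (ν - σ)) :=
      mul_nonneg hl (mul_nonneg (by linarith) (by linarith))
    have a2 : 0 ≤ (ν - r) * (σ * (σ - l)) :=
      mul_nonneg (by linarith) (mul_nonneg hσ.le hσl.le)
    nlinarith
  have e : FL ν τ σ = q ^ 2 * (σ * (ν - σ) / ν) + q := by
    unfold FL; rw [hτq]; field_simp; ring
  have hH2 : H ≤ σ * (ν - σ) / ν := by rw [le_div_iff₀ hν]; exact hHle
  rw [e]
  have b1 : V ^ 2 ≤ (H * q) ^ 2 := pow_le_pow_left₀ hV0 hVq 2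
  have b2 : (H * q) ^ 2 ≤ H * (q ^ 2 * (σ * (ν - σ) / ν)) := by
    have : (H * q) ^ 2 = H * (q ^ 2 * H) := by ring
    rw [this]
    exact mul_le_mul_of_nonneg_left (mul_le_mul_of_nonneg_left hH2 (by positivity)) hH0
  nlinarith

lemma tent (ν : ℕ) (g : ℕ → ℝ) (hg : ∀ τ, 0 ≤ g τ) (M : ℝ)
    (hM : ∀ σ : ℝ, 0 < σ → σ < ν → Phi ν g σ ≤ M) (l r : ℕ) (hlr : l < r) (hr : r ≤ ν)
    (θ : ℝ) (θ0 : 0 < θ) (θ1 : θ < 1) (V : ℕ → ℝ)
    (hV : ∀ τ ∈ Ioo l r, 0 ≤ V τ ∧ V τ ≤ (1 - θ) * (τ - l) ∧ V τ ≤ θ * (r - τ)) :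
    ∑ τ ∈ Ioo l r, g τ * (V τ ^ 2 + V τ) ≤ θ * (1 - θ) * (r - l) * M := by
  have hlr' : (l : ℝ) < r := by exact_mod_cast hlr
  have hr' : (r : ℝ) ≤ ν := by exact_mod_cast hr
  have hl : (0 : ℝ) ≤ l := Nat.cast_nonneg l
  set σ : ℝ := l + θ * (r - l) with hσ
  set H : ℝ := θ * (1 - θ) * (r - l) with hH
  have hlσ : (l : ℝ) < σ := by rw [hσ]; nlinarith
  have hσr : σ < r := by rw [hσ]; nlinarith
  have σ0 : 0 < σ := by linarith
  have σ1 : σ < ν := by linarith
  have H0 : 0 ≤ H := by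
    rw [hH]; exact mul_nonneg (mul_nonneg θ0.le (by linarith)) (by linarith)
  calc ∑ τ ∈ Ioo l r, g τ * (V τ ^ 2 + V τ) ≤ ∑ τ ∈ Ioo l r, H * (g τ * F ν τ σ) := by
        refine sum_le_sum fun τ hτ => ?_
        obtain ⟨v0, v1, v2⟩ := hV τ hτ
        obtain ⟨t1, t2⟩ := mem_Ioo.1 hτ
        have t1' : (l : ℝ) < τ := by exact_mod_cast t1
        have t2' : (τ : ℝ) < r := by exact_mod_cast t2
        have : V τ ^ 2 + V τ ≤ H * F ν τ σ := by
          by_cases c : (τ : ℝ) ≤ σ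
          · rw [F_left c]
            refine tent_pt hl t1' c hσr hr' (by rw [hH, hσ]; ring) v0 ?_
            have : H * (τ - l) = (1 - θ) * (τ - l) * (σ - l) := by rw [hH, hσ]; ring
            rw [this]
            exact mul_le_mul_of_nonneg_right v1 (by linarith)
          · have c' := not_le.1 c
            rw [F_right c'.le σ0 σ1]
            refine tent_pt (l := ν - r) (r := ν - l) (by linarith) (by linarith) (by linarith)
              (by linarith) (by linarith) (by rw [hH, hσ]; ring) v0 ?_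
            have : H * (ν - τ - (ν - r)) = θ * (r - τ) * (ν - σ - (ν - r)) := by rw [hH, hσ]; ring
            rw [this]
            exact mul_le_mul_of_nonneg_right v2 (by linarith)
        nlinarith [mul_le_mul_of_nonneg_left this (hg τ)]
    _ = H * ∑ τ ∈ Ioo l r, g τ * F ν τ σ := by rw [mul_sum]
    _ ≤ H * Phi ν g σ := by
        refine mul_le_mul_of_nonneg_left ?_ H0
        refine sum_le_sum_of_subset_of_nonneg (fun τ hτ => ?_) (fun τ hτ _ => ?_)
        · have := (mem_Ioo.1 hτ).2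
          simp only [mem_range]; omega
        · have : τ ≤ ν := by simpa [Nat.lt_succ_iff] using hτ
          exact mul_nonneg (hg τ) (F_nonneg (Nat.cast_nonneg τ) (by exact_mod_cast this) σ0 σ1)
    _ ≤ H * M := mul_le_mul_of_nonneg_left (hM σ σ0 σ1) H0

lemma walk (ν : ℕ) (g : ℕ → ℝ) (hg : ∀ τ, 0 ≤ g τ) (M : ℝ)
    (hM : ∀ σ : ℝ, 0 < σ → σ < ν → Phi ν g σ ≤ M) (ρ : ℝ) (ρ0 : 0 < ρ) (ρ1 : ρ < 1)
    (U : ℕ → ℝ) (hU : ∀ τ < ν, -ρ ≤ U (τ + 1) - U τ ∧ U (τ + 1) - U τ ≤ 1 - ρ)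
    (h0 : |U 0| ≤ 1 / 2) (k : ℕ) (hk : k ≤ ν) (hUk : |U k| ≤ 1 / 2) :
    ∑ τ ∈ range (k + 1), g τ * (U τ ^ 2 - 1 / 4) ≤ ρ * (1 - ρ) * k * M := by
  classical
  have hstep : ∀ j d : ℕ, j + d ≤ ν → -ρ * d ≤ U (j + d) - U j ∧ U (j + d) - U j ≤ (1 - ρ) * d := by
    intro j d
    induction d with
    | zero => simp
    | succ d ih =>
      intro h
      obtain ⟨a, b⟩ := ih (by omega)
      obtain ⟨a', b'⟩ := hU (j + d) (by omega)
      rw [← add_assoc]
      push_cast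
      constructor <;> linarith
  have hstep' : ∀ j i : ℕ, j ≤ i → i ≤ ν →
      -ρ * (i - j) ≤ U i - U j ∧ U i - U j ≤ (1 - ρ) * (i - j) := by
    intro j i h1 h2
    obtain ⟨d, rfl⟩ := Nat.exists_eq_add_of_le h1
    have := hstep j d h2
    push_cast
    simpa using this
  have hsm : ∀ j, |U j| ≤ 1 / 2 → g j * (U j ^ 2 - 1 / 4) ≤ 0 := fun j hj => by
    have := abs_le.1 hj
    exact mul_nonpos_of_nonneg_of_nonpos (hg j) (by nlinarith)
  induction k using Nat.strong_induction_on with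
  | _ k ih =>
    rcases Nat.eq_zero_or_pos k with rfl | kpos
    · simpa using hsm 0 h0
    set l := Nat.findGreatest (fun j => |U j| ≤ 1 / 2) (k - 1) with hl
    have l1 : l ≤ k - 1 := Nat.findGreatest_le _
    have l2 : |U l| ≤ 1 / 2 := Nat.findGreatest_spec (P := fun j => |U j| ≤ 1 / 2) (Nat.zero_le _) h0
    have l3 : ∀ j, l < j → j < k → 1 / 2 < |U j| := fun j a b =>
      not_le.1 (Nat.findGreatest_is_greatest (P := fun j => |U j| ≤ 1 / 2) a (by omega))
    have i1 := ih l (by omega) (by omega) l2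
    have hsplit : ∑ τ ∈ range (k + 1), g τ * (U τ ^ 2 - 1 / 4)
        = ∑ τ ∈ range (l + 1), g τ * (U τ ^ 2 - 1 / 4) + ∑ τ ∈ Ioo l k, g τ * (U τ ^ 2 - 1 / 4)
          + g k * (U k ^ 2 - 1 / 4) := by
      rw [sum_range_succ, ← sum_union]
      · congr 2
        ext j; simp only [mem_range, mem_union, mem_Ioo]; omega
      · rw [disjoint_left]; intro j a b
        simp only [mem_range, mem_Ioo] at a b; omega
    have a2 := abs_le.1 l2
    have a3 := abs_le.1 hUk
    have hmid : ∑ τ ∈ Ioo l k, g τ * (U τ ^ 2 - 1 / 4) ≤ ρ * (1 - ρ) * (k - l) * M := by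
      by_cases c : 1 / 2 < U (l + 1)
      · have hall : ∀ d, l + 1 + d < k → 1 / 2 < U (l + 1 + d) := by
          intro d
          induction d with
          | zero => intro _; simpa using c
          | succ d ihd =>
            intro h
            have b1 := ihd (by omega)
            have b2 := (hU (l + 1 + d) (by omega)).1
            have b3 := l3 (l + 1 + d + 1) (by omega) (by omega)
            rw [← add_assoc]
            rcases lt_abs.1 b3 with b | b
            · exact b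
            · linarith
        have := tent ν g hg M hM l k (by omega) hk ρ ρ0 ρ1 (fun τ => U τ - 1 / 2) (fun τ hτ => by
          obtain ⟨t1, t2⟩ := mem_Ioo.1 hτ
          obtain ⟨d, rfl⟩ : ∃ d, τ = l + 1 + d := ⟨τ - (l + 1), by omega⟩
          have b1 := hall d t2
          have b2 := (hstep' l _ t1.le (by omega)).2
          have b3 := (hstep' _ k t2.le hk).1
          refine ⟨by linarith, by linarith, by linarith⟩)
        refine le_trans (le_of_eq (sum_congr rfl fun τ _ => by ring)) this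
      · have hall : ∀ d, l + 1 + d < k → U (l + 1 + d) < -(1 / 2) := by
          intro d
          induction d with
          | zero =>
            intro h
            rcases lt_abs.1 (l3 (l + 1) (by omega) (by omega)) with b | b
            · exact absurd b c
            · simp only [add_zero]; linarith
          | succ d ihd =>
            intro h
            have b1 := ihd (by omega)
            have b2 := (hU (l + 1 + d) (by omega)).2
            have b3 := l3 (l + 1 + d + 1) (by omega) (by omega)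
            rw [← add_assoc]
            rcases lt_abs.1 b3 with b | b
            · linarith
            · linarith
        have := tent ν g hg M hM l k (by omega) hk (1 - ρ) (by linarith) (by linarith)
          (fun τ => -U τ - 1 / 2) (fun τ hτ => by
          obtain ⟨t1, t2⟩ := mem_Ioo.1 hτ
          obtain ⟨d, rfl⟩ : ∃ d, τ = l + 1 + d := ⟨τ - (l + 1), by omega⟩
          have b1 := hall d t2
          have b2 := (hstep' l _ t1.le (by omega)).1
          have b3 := (hstep' _ k t2.le hk).2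
          refine ⟨by linarith, by linarith, by linarith⟩)
        refine le_trans (le_of_eq (sum_congr rfl fun τ _ => by ring)) (this.trans (le_of_eq ?_))
        ring
    rw [hsplit]
    have := hsm k hUk
    nlinarith

end Pool.Agent.H.MP_e22fa6_co
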