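import Mathlib

namespace Pool.Agent.H.MP_e22fa6_co
open Finset

/-- Average cost of agent `i` in the coalition `C`; for a singleton it is `0` in the HIS setting
(`his = true`) and `+∞` in the UIS setting (`his = false`). -/
noncomputable def cost {n : ℕ} (his : Bool) (v : Fin n → ℝ) (C : Finset (Fin n)) (i : Fin n) :
    WithTop ℝ :=
  if 2 ≤ C.card then ((1 / ((C.card : ℝ) - 1) * ∑ j ∈ C.erase i, |v i - v j| : ℝ) : WithTop ℝ)
  else if his then 0 else ⊤

/-- Social cost of a coalition structure: the sum of the costs of all agents in their coalitions. -/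
noncomputable def SC {n : ℕ} (his : Bool) (v : Fin n → ℝ)
    (P : Finpartition (univ : Finset (Fin n))) : WithTop ℝ :=
  ∑ i, cost his v (P.part i) i

/-- Sorted structures: every coalition contains every agent whose value lies between the values of
two of its members. -/
def IsSorted {n : ℕ} (v : Fin n → ℝ) (P : Finpartition (univ : Finset (Fin n))) : Prop :=
  ∀ C ∈ P.parts, ∀ i ∈ C, ∀ j ∈ C, ∀ l : Fin n,
    min (v i) (v j) ≤ v l → v l ≤ max (v i) (v j) → l ∈ C

end Pool.Agent.H.MP_e22fa6_co
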