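import Pool.Agent.H.MP_e22fa6_co.Defs
import Pool.Agent.H.MP_e22fa6_co.Arith

namespace Pool.Agent.H.MP_e22fa6_co
open Finset

variable {ν : ℕ}

def w (v : Fin (ν + 2) → ℝ) (k : ℕ) : ℝ := v ⟨min k (ν + 1), by omega⟩
def g (v : Fin (ν + 2) → ℝ) (τ : ℕ) : ℝ := w v (τ + 1) - w v τ
noncomputable def ind (τ : ℕ) (i : Fin (ν + 2)) : ℝ := if i.val ≤ τ then 1 else 0
noncomputable def x (C : Finset (Fin (ν + 2))) (τ : ℕ) : ℝ := ∑ i ∈ C, ind τ i
noncomputable def rc (v : Fin (ν + 2) → ℝ) (C : Finset (Fin (ν + 2))) : ℝ :=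
  (∑ i ∈ C, ∑ j ∈ C, |v i - v j|) / ((C.card : ℝ) - 1)
noncomputable def fc (c y : ℝ) : ℝ := y * (c - y) / (c - 1)
noncomputable def tot (v : Fin (ν + 2) → ℝ) (A : Finset (Fin (ν + 2))) : ℝ := rc v A + rc v Aᶜ
def cut (ν m : ℕ) : Finset (Fin (ν + 2)) := univ.filter (fun i => i.val ≤ m)

lemma w_val (v : Fin (ν + 2) → ℝ) (i : Fin (ν + 2)) : w v i = v i := by
  unfold w; congr 1; ext; have := i.2; simp only; omega

lemma g_nonneg {v : Fin (ν + 2) → ℝ} (hv : Monotone v) (τ : ℕ) : 0 ≤ g v τ := by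
  unfold g w
  refine sub_nonneg.2 (hv ?_)
  rw [Fin.mk_le_mk]; omega

lemma v_eq (v : Fin (ν + 2) → ℝ) (i : Fin (ν + 2)) :
    v i = w v (ν + 1) - ∑ τ ∈ range (ν + 1), g v τ * ind τ i := by
  have hi : i.val ≤ ν + 1 := by have := i.2; omega
  have : ∑ τ ∈ range (ν + 1), g v τ * ind τ i = ∑ τ ∈ Ico i.val (ν + 1), g v τ := by
    have : Ico i.val (ν + 1) = (range (ν + 1)).filter (fun τ => i.val ≤ τ) := by
      ext τ; simp only [mem_Ico, mem_filter, mem_range]; omega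
    rw [this, sum_filter]
    refine sum_congr rfl fun τ _ => ?_
    unfold ind; split_ifs <;> simp
  rw [this, sum_Ico_eq_sub _ hi]
  unfold g
  rw [sum_range_sub, sum_range_sub, w_val]; ring

lemma abs_eq' {v : Fin (ν + 2) → ℝ} (hv : Monotone v) (i j : Fin (ν + 2)) :
    |v i - v j| = ∑ τ ∈ range (ν + 1), g v τ * (ind τ i + ind τ j - 2 * (ind τ i * ind τ j)) := by
  wlog h : i ≤ j generalizing i j
  · rw [abs_sub_comm, this j i (le_of_not_ge h)]
    exact sum_congr rfl fun τ _ => by ring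
  rw [abs_sub_comm, abs_of_nonneg (sub_nonneg.2 (hv h)), v_eq v i, v_eq v j]
  rw [sub_sub_sub_cancel_left, ← sum_sub_distrib]
  refine sum_congr rfl fun τ _ => ?_
  have h' : i.val ≤ j.val := h
  unfold ind
  split_ifs with a b
  · ring
  · ring
  · omega
  · ring

lemma rc_eq {v : Fin (ν + 2) → ℝ} (hv : Monotone v) (C : Finset (Fin (ν + 2))) :
    rc v C = 2 * ∑ τ ∈ range (ν + 1), g v τ * fc C.card (x C τ) := by
  unfold rc
  simp_rw [abs_eq' hv]
  have : ∑ i ∈ C, ∑ j ∈ C, ∑ τ ∈ range (ν + 1),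
      g v τ * (ind τ i + ind τ j - 2 * (ind τ i * ind τ j))
      = ∑ τ ∈ range (ν + 1), g v τ * (2 * (x C τ * (C.card - x C τ))) := by
    rw [sum_congr rfl fun i _ => sum_comm, sum_comm]
    refine sum_congr rfl fun τ _ => ?_
    simp_rw [← mul_sum]
    congr 1
    simp only [sum_sub_distrib, sum_add_distrib, sum_const, nsmul_eq_mul, ← mul_sum, ← sum_mul, x]
    ring
  rw [this, mul_sum, sum_div]
  refine sum_congr rfl fun τ _ => ?_
  unfold fc; ring

lemma x_univ (τ : ℕ) (h : τ ≤ ν + 1) : x (univ : Finset (Fin (ν + 2))) τ = τ + 1 := by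
  unfold x ind
  rw [Fin.sum_univ_eq_sum_range (fun i => if i ≤ τ then (1 : ℝ) else 0), ← sum_filter]
  have : (range (ν + 2)).filter (fun i => i ≤ τ) = range (τ + 1) := by
    ext i; simp only [mem_filter, mem_range]; omega
  rw [this]; simp

lemma x_compl (C : Finset (Fin (ν + 2))) (τ : ℕ) (h : τ ≤ ν + 1) : x Cᶜ τ = τ + 1 - x C τ := by
  rw [← x_univ τ h]
  unfold x
  rw [← sum_add_sum_compl C]; ring

lemma x_nonneg (C : Finset (Fin (ν + 2))) (τ : ℕ) : 0 ≤ x C τ :=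
  sum_nonneg fun i _ => by unfold ind; split_ifs <;> norm_num

lemma x_mono (C : Finset (Fin (ν + 2))) (τ : ℕ) : x C τ ≤ x C (τ + 1) :=
  sum_le_sum fun i _ => by
    unfold ind; split_ifs with a b
    · exact le_rfl
    · omega
    · norm_num
    · exact le_rfl

lemma x_step (C : Finset (Fin (ν + 2))) (τ : ℕ) (h : τ ≤ ν) : x C (τ + 1) ≤ x C τ + 1 := by
  have := x_mono Cᶜ τ
  rw [x_compl C τ (by omega), x_compl C (τ + 1) (by omega)] at this
  push_cast at this; linarith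

lemma x_last (C : Finset (Fin (ν + 2))) : x C (ν + 1) = C.card := by
  unfold x
  rw [sum_congr rfl (g := fun _ => (1 : ℝ))]
  · simp
  · intro i _; unfold ind; rw [if_pos]; have := i.2; omega

lemma x_cut (m τ : ℕ) (hm : m ≤ ν + 1) : x (cut ν m) τ = (min τ m : ℕ) + 1 := by
  rw [← x_univ (ν := ν) (min τ m) (by omega)]
  unfold x cut
  rw [sum_filter]
  refine sum_congr rfl fun i _ => ?_
  unfold ind
  split_ifs <;> first | rfl | omega

lemma card_cut (m : ℕ) (hm : m ≤ ν + 1) : ((cut ν m).card : ℝ) = m + 1 := by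
  rw [← x_last, x_cut m _ hm, min_eq_right hm]

lemma card_compl' (C : Finset (Fin (ν + 2))) : (Cᶜ.card : ℝ) = ν + 2 - C.card := by
  rw [← x_last, x_compl C _ le_rfl, x_last]; push_cast; ring

lemma tot_eq {v : Fin (ν + 2) → ℝ} (hv : Monotone v) (C : Finset (Fin (ν + 2))) :
    tot v C = 2 * ∑ τ ∈ range (ν + 1),
      g v τ * (fc C.card (x C τ) + fc (ν + 2 - C.card) (τ + 1 - x C τ)) := by
  unfold tot
  rw [rc_eq hv, rc_eq hv, ← mul_add, ← sum_add_distrib, card_compl']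
  congr 1
  refine sum_congr rfl fun τ hτ => ?_
  rw [x_compl C τ (by have := mem_range.1 hτ; omega)]; ring

lemma tot_compl (v : Fin (ν + 2) → ℝ) (C : Finset (Fin (ν + 2))) : tot v Cᶜ = tot v C := by
  unfold tot; rw [compl_compl, add_comm]

lemma cut_last : cut ν (ν + 1) = univ := by
  ext i; have := i.2; simp only [cut, mem_filter, mem_univ, true_and, iff_true]; omega

def Good (v : Fin (ν + 2) → ℝ) (m : ℕ) : Prop := m = ν + 1 ∨ (m ≤ ν ∧ 0 < g v m)

noncomputable def E (ν τ : ℝ) : ℝ :=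
  (τ + 1) * (ν + 1 - τ) / (ν + 1) + τ * (ν - τ) / (ν * (ν + 1))

lemma tot_cut {v : Fin (ν + 2) → ℝ} (hv : Monotone v) (m : ℕ) (h1 : 1 ≤ m) (h2 : m < ν) :
    tot v (cut ν m) = 2 * (∑ τ ∈ range (ν + 1), g v τ * E ν τ - Phi ν (g v) m) := by
  rw [tot_eq hv, Phi, ← sum_sub_distrib, card_cut m (by omega)]
  congr 1
  refine sum_congr rfl fun τ _ => ?_
  rw [← mul_sub, x_cut m τ (by omega)]
  congr 1
  have a1 : (0 : ℝ) < m := by exact_mod_cast h1
  have a2 : (m : ℝ) < ν := by exact_mod_cast h2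
  have a3 : (ν : ℝ) ≠ 0 := by linarith
  have a4 : (ν : ℝ) + 1 ≠ 0 := by linarith
  have a5 : (ν : ℝ) - m ≠ 0 := by linarith
  rcases le_total τ m with c | c
  · rw [min_eq_left c, F_left (by exact_mod_cast c)]
    unfold fc FL E
    rw [show (m : ℝ) + 1 - 1 = m by ring]
    field_simp
    ring
  · rw [min_eq_right c, F_right (by exact_mod_cast c) a1 a2]
    unfold fc FL E
    rw [show (ν : ℝ) + 2 - (m + 1) - 1 = ν - m by ring]
    field_simp
    ring

lemma main_big {v : Fin (ν + 2) → ℝ} (hv : Monotone v) (B : Finset (Fin (ν + 2)))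
    (h1 : 2 ≤ B.card) (h2 : 2 ≤ Bᶜ.card) :
    ∃ m, Good v m ∧ (cut ν m).card ≠ 1 ∧ (cut ν m)ᶜ.card ≠ 1 ∧ tot v (cut ν m) ≤ tot v B := by
  classical
  obtain ⟨m, hm, hmin⟩ := exists_min_image
    ((range (ν + 2)).filter (fun m => m = ν + 1 ∨ (1 ≤ m ∧ m < ν ∧ 0 < g v m)))
    (fun m => tot v (cut ν m)) ⟨ν + 1, by simp⟩
  obtain ⟨hm1, hm2⟩ := mem_filter.1 hm
  have hm1' : m ≤ ν + 1 := by have := mem_range.1 hm1; omega
  have c1 := card_cut (ν := ν) m hm1'
  have c2 := card_compl' (cut ν m)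
  rw [c1] at c2
  have c1' : (cut ν m).card = m + 1 := by exact_mod_cast c1
  have c2' : (cut ν m)ᶜ.card + m = ν + 1 := by
    have : ((cut ν m)ᶜ.card : ℝ) + m = ν + 1 := by linarith
    exact_mod_cast this
  refine ⟨m, ?_, by omega, by omega, ?_⟩
  · rcases hm2 with h | h
    · exact Or.inl h
    · exact Or.inr ⟨by omega, h.2.2⟩
  set M := ∑ τ ∈ range (ν + 1), g v τ * E ν τ - tot v (cut ν m) / 2 with hM
  set α : ℝ := B.card - 1 with hα
  have α1 : 1 ≤ α := by
    have : (2 : ℝ) ≤ B.card := by exact_mod_cast h1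
    linarith
  have α2 : α + 1 ≤ ν := by
    have : (2 : ℝ) ≤ Bᶜ.card := by exact_mod_cast h2
    rw [card_compl'] at this
    linarith
  have ν0 : (0 : ℝ) < ν := by linarith
  have M0 : 0 ≤ M := by
    have := hmin (ν + 1) (by simp)
    simp only [cut_last] at this
    rw [tot_eq hv univ] at this
    have h3 : ∑ τ ∈ range (ν + 1), g v τ * (fc (univ : Finset (Fin (ν + 2))).card (x (univ : Finset (Fin (ν + 2))) τ) +
        fc (ν + 2 - (univ : Finset (Fin (ν + 2))).card) (τ + 1 - x (univ : Finset (Fin (ν + 2))) τ))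
        ≤ ∑ τ ∈ range (ν + 1), g v τ * E ν τ := by
      refine sum_le_sum fun τ hτ => mul_le_mul_of_nonneg_left ?_ (g_nonneg hv τ)
      have hτ' : τ ≤ ν := by have := mem_range.1 hτ; omega
      have hτ'' : (τ : ℝ) ≤ ν := by exact_mod_cast hτ'
      rw [x_univ τ (by omega), card_univ, Fintype.card_fin]
      unfold fc E
      have : 0 ≤ (τ : ℝ) * (ν - τ) / (ν * (ν + 1)) :=
        div_nonneg (mul_nonneg (Nat.cast_nonneg _) (by linarith)) (by positivity)
      push_cast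
      rw [show (ν : ℝ) + 2 - (τ + 1) = ν + 1 - τ by ring, show (ν : ℝ) + 2 - 1 = ν + 1 by ring]
      simp only [sub_self, zero_mul, zero_div, add_zero]
      linarith
    linarith
  have hPhi := Phi_le ν (g v) (g_nonneg hv) M M0 (fun k k1 k2 k3 => by
    have := hmin k (mem_filter.2 ⟨mem_range.2 (by omega), Or.inr ⟨k1, k2, k3⟩⟩)
    rw [tot_cut hv k k1 k2] at this
    linarith)
  have ρ0 : 0 < α / ν := div_pos (by linarith) ν0
  have ρ1 : α / ν < 1 := by rw [div_lt_one ν0]; linarith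
  have hw := walk ν (g v) (g_nonneg hv) M hPhi (α / ν) ρ0 ρ1 (fun τ => x B τ - 1 / 2 - α / ν * τ)
    (fun τ hτ => by
      have a := x_mono B τ
      have b := x_step B τ hτ.le
      push_cast
      constructor <;> linarith)
    (by
      have a := x_nonneg B 0
      have b := x_nonneg Bᶜ 0
      rw [x_compl B 0 (by omega)] at b
      rw [abs_le]; push_cast at *; constructor <;> linarith) ν le_rfl
    (by
      have a := x_mono B ν
      have b := x_step B ν le_rfl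
      rw [x_last] at a b
      rw [div_mul_cancel₀ _ ν0.ne', abs_le]; constructor <;> linarith)
  set N : ℝ := α / ν * (1 - α / ν) * ν with hN
  have N0 : 0 < N := mul_pos (mul_pos ρ0 (by linarith)) ν0
  have hB : tot v B = 2 * (∑ τ ∈ range (ν + 1), g v τ * E ν τ -
      (∑ τ ∈ range (ν + 1), g v τ * ((x B τ - 1 / 2 - α / ν * τ) ^ 2 - 1 / 4)) / N) := by
    rw [tot_eq hv, sum_div, ← sum_sub_distrib]
    congr 1
    refine sum_congr rfl fun τ _ => ?_
    rw [mul_div_assoc, ← mul_sub]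
    congr 1
    have e : (B.card : ℝ) = α + 1 := by rw [hα]; ring
    rw [e, hN]
    unfold fc E
    have a3 : (ν : ℝ) ≠ 0 := by linarith
    have a4 : (ν : ℝ) + 1 ≠ 0 := by linarith
    have a5 : (ν : ℝ) - α ≠ 0 := by linarith
    have a6 : α ≠ 0 := by linarith
    rw [show α + 1 - 1 = α by ring, show (ν : ℝ) + 2 - (α + 1) - 1 = ν - α by ring,
      show 1 - α / ν = (ν - α) / ν by field_simp]
    field_simp
    ring
  have : (∑ τ ∈ range (ν + 1), g v τ * ((x B τ - 1 / 2 - α / ν * τ) ^ 2 - 1 / 4)) / N ≤ M := by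
    rw [div_le_iff₀ N0]; linarith
  linarith

lemma frac1 {a b c : ℝ} (h0 : 0 ≤ a) (h1 : a ≤ b) (h2 : b ≤ c) : (b - a) / (c - a) ≤ b / c := by
  rcases eq_or_lt_of_le (h1.trans h2) with h | h
  · rw [← h, sub_self, div_zero]; exact div_nonneg (by linarith) h0
  · rw [div_le_div_iff₀ (by linarith) (by linarith)]; nlinarith

lemma main_single {v : Fin (ν + 2) → ℝ} (hv : Monotone v) (i : Fin (ν + 2)) :
    ∃ m, Good v m ∧ tot v (cut ν m) ≤ tot v {i} := by
  classical
  by_cases hT : ((range (ν + 1)).filter (fun τ => 0 < g v τ)).Nonempty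
  swap
  · refine ⟨ν + 1, Or.inl rfl, le_of_eq ?_⟩
    rw [tot_eq hv, tot_eq hv]
    congr 1
    refine sum_congr rfl fun τ hτ => ?_
    have : g v τ = 0 := le_antisymm (not_lt.1 fun h => hT ⟨τ, mem_filter.2 ⟨hτ, h⟩⟩) (g_nonneg hv τ)
    simp [this]
  have hs : ∀ τ : ℕ, fc ({i} : Finset (Fin (ν + 2))).card (x {i} τ) +
      fc (ν + 2 - ({i} : Finset (Fin (ν + 2))).card) (τ + 1 - x {i} τ)
      = if i.val ≤ τ then (τ : ℝ) / ν * (ν + 1 - τ) else ((ν : ℝ) - τ) / ν * (τ + 1) := by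
    intro τ
    simp only [x, sum_singleton, card_singleton, ind, fc]
    push_cast
    rw [show (ν : ℝ) + 2 - 1 - 1 = ν by ring]
    split_ifs <;> ring
  have ν0 : (0 : ℝ) ≤ ν := Nat.cast_nonneg ν
  by_cases c : 2 * i.val ≤ ν
  · obtain ⟨m, hm, hmin⟩ := exists_min_image _ (fun τ : ℕ => τ) hT
    obtain ⟨hm1, hm2⟩ := mem_filter.1 hm
    have hm1' : m ≤ ν := by have := mem_range.1 hm1; omega
    refine ⟨m, Or.inr ⟨hm1', hm2⟩, ?_⟩
    rw [tot_eq hv, tot_eq hv]
    refine mul_le_mul_of_nonneg_left (sum_le_sum fun τ hτ => ?_) (by norm_num)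
    rcases eq_or_lt_of_le (g_nonneg hv τ) with h | h
    · simp [← h]
    refine mul_le_mul_of_nonneg_left ?_ h.le
    have t1 : m ≤ τ := hmin τ (mem_filter.2 ⟨hτ, h⟩)
    have t2 : τ ≤ ν := by have := mem_range.1 hτ; omega
    have t1' : (m : ℝ) ≤ τ := by exact_mod_cast t1
    have t2' : (τ : ℝ) ≤ ν := by exact_mod_cast t2
    rw [hs, x_cut m τ (by omega), card_cut m (by omega), min_eq_right t1]
    have f := frac1 (Nat.cast_nonneg m) t1' t2'
    have e : fc (m + 1) (m + 1) + fc (ν + 2 - (m + 1)) (τ + 1 - (m + 1))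
        = ((τ : ℝ) - m) / (ν - m) * (ν + 1 - τ) := by
      unfold fc
      rw [show (ν : ℝ) + 2 - (m + 1) - 1 = ν - m by ring]; ring
    rw [e]
    have f2 := mul_le_mul_of_nonneg_right f (by linarith : (0 : ℝ) ≤ ν + 1 - τ)
    split_ifs with d
    · exact f2
    · refine f2.trans ?_
      have : (2 : ℝ) * τ ≤ ν := by exact_mod_cast (by omega : 2 * τ ≤ ν)
      rw [div_mul_eq_mul_div, div_mul_eq_mul_div]
      exact div_le_div_of_nonneg_right (by nlinarith) ν0
  · obtain ⟨m, hm, hmax⟩ := exists_max_image _ (fun τ : ℕ => τ) hT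
    obtain ⟨hm1, hm2⟩ := mem_filter.1 hm
    have hm1' : m ≤ ν := by have := mem_range.1 hm1; omega
    refine ⟨m, Or.inr ⟨hm1', hm2⟩, ?_⟩
    rw [tot_eq hv, tot_eq hv]
    refine mul_le_mul_of_nonneg_left (sum_le_sum fun τ hτ => ?_) (by norm_num)
    rcases eq_or_lt_of_le (g_nonneg hv τ) with h | h
    · simp [← h]
    refine mul_le_mul_of_nonneg_left ?_ h.le
    have t1 : τ ≤ m := hmax τ (mem_filter.2 ⟨hτ, h⟩)
    have t1' : (τ : ℝ) ≤ m := by exact_mod_cast t1
    have t2' : (m : ℝ) ≤ ν := by exact_mod_cast hm1'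
    have t0 : (0 : ℝ) ≤ τ := Nat.cast_nonneg τ
    rw [hs, x_cut m τ (by omega), card_cut m (by omega), min_eq_left t1]
    have f := frac1 (a := ν - m) (b := ν - τ) (c := ν) (by linarith) (by linarith) (by linarith)
    have e : fc (m + 1) (τ + 1) + fc (ν + 2 - (m + 1)) (τ + 1 - (τ + 1))
        = ((ν : ℝ) - τ - (ν - m)) / (ν - (ν - m)) * (τ + 1) := by
      unfold fc
      rw [show (m : ℝ) + 1 - 1 = ν - (ν - m) by ring]; ring
    rw [e]
    have f2 := mul_le_mul_of_nonneg_right f (by linarith : (0 : ℝ) ≤ τ + 1)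
    split_ifs with d
    · refine f2.trans ?_
      have : (ν : ℝ) ≤ 2 * τ := by exact_mod_cast (by omega : ν ≤ 2 * τ)
      rw [div_mul_eq_mul_div, div_mul_eq_mul_div]
      exact div_le_div_of_nonneg_right (by nlinarith) ν0
    · exact f2

def Adm (his : Bool) (A : Finset (Fin (ν + 2))) : Prop := his = true ∨ (A.card ≠ 1 ∧ Aᶜ.card ≠ 1)

lemma main_real {v : Fin (ν + 2) → ℝ} (hv : Monotone v) (his : Bool) (B : Finset (Fin (ν + 2)))
    (hB : Adm his B) : ∃ m, Good v m ∧ Adm his (cut ν m) ∧ tot v (cut ν m) ≤ tot v B := by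
  have hu : Adm his (cut ν (ν + 1)) := by
    rw [cut_last]; right; simp
  by_cases a0 : B = ∅
  · refine ⟨ν + 1, Or.inl rfl, hu, ?_⟩
    rw [a0, cut_last, ← tot_compl, compl_univ]
  by_cases b0 : Bᶜ = ∅
  · refine ⟨ν + 1, Or.inl rfl, hu, ?_⟩
    rw [← tot_compl v B, b0, cut_last, ← tot_compl, compl_univ]
  by_cases a1 : B.card = 1
  · obtain ⟨i, rfl⟩ := card_eq_one.1 a1
    obtain ⟨m, h1, h2⟩ := main_single hv i
    exact ⟨m, h1, Or.inl (hB.resolve_right fun h => h.1 a1), h2⟩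
  by_cases b1 : Bᶜ.card = 1
  · obtain ⟨i, hi⟩ := card_eq_one.1 b1
    obtain ⟨m, h1, h2⟩ := main_single hv i
    refine ⟨m, h1, Or.inl (hB.resolve_right fun h => h.2 b1), ?_⟩
    rwa [← tot_compl v B, hi]
  have a2 := card_eq_zero.not.2 a0
  have b2 := card_eq_zero.not.2 b0
  obtain ⟨m, h1, h2, h3, h4⟩ := main_big hv B (by omega) (by omega)
  exact ⟨m, h1, Or.inr ⟨h2, h3⟩, h4⟩

lemma sum_cost (his : Bool) (v : Fin (ν + 2) → ℝ) (C : Finset (Fin (ν + 2))) :
    ∑ i ∈ C, cost his v C i = if his = true ∨ C.card ≠ 1 then ((rc v C : ℝ) : WithTop ℝ) else ⊤ := by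
  by_cases h2 : 2 ≤ C.card
  · rw [if_pos (Or.inr (by omega))]
    simp only [cost, if_pos h2]
    rw [← WithTop.coe_sum]
    congr 1
    unfold rc
    rw [sum_div]
    refine sum_congr rfl fun i hi => ?_
    rw [← add_sum_erase C _ hi]; simp; ring
  by_cases h0 : C = ∅
  · subst h0; simp [rc]
  have h1 : C.card = 1 := by have := card_eq_zero.not.2 h0; omega
  obtain ⟨i, rfl⟩ := card_eq_one.1 h1
  cases his <;> simp [cost, rc]

lemma SC_eq (his : Bool) (v : Fin (ν + 2) → ℝ) (P : Finpartition (univ : Finset (Fin (ν + 2))))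
    (A : Finset (Fin (ν + 2))) (h1 : ∀ i ∈ A, P.part i = A) (h2 : ∀ i ∈ Aᶜ, P.part i = Aᶜ) :
    (Adm his A → SC his v P = ((tot v A : ℝ) : WithTop ℝ)) ∧ (¬ Adm his A → SC his v P = ⊤) := by
  have : SC his v P = ∑ i ∈ A, cost his v A i + ∑ i ∈ Aᶜ, cost his v Aᶜ i := by
    unfold SC
    rw [← sum_add_sum_compl A]
    congr 1
    · exact sum_congr rfl fun i hi => by rw [h1 i hi]
    · exact sum_congr rfl fun i hi => by rw [h2 i hi]
  rw [this, sum_cost, sum_cost]
  constructor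
  · intro h
    rw [if_pos (h.imp_right And.left), if_pos (h.imp_right And.right), tot, WithTop.coe_add]
  · intro h
    unfold Adm at h
    by_cases a : his = true ∨ A.card ≠ 1
    · rw [if_neg (c := his = true ∨ Aᶜ.card ≠ 1) (by tauto)]; simp
    · rw [if_neg a]; simp

lemma exists_set (P : Finpartition (univ : Finset (Fin (ν + 2)))) (hP : P.parts.card ≤ 2) :
    ∃ A : Finset (Fin (ν + 2)), (∀ i ∈ A, P.part i = A) ∧ (∀ i ∈ Aᶜ, P.part i = Aᶜ) := by
  have hm : ∀ i, P.part i ∈ P.parts := fun i => P.part_mem.2 (mem_univ i)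
  have hs : ∀ i, i ∈ P.part i := fun i => P.mem_part_self.2 (mem_univ i)
  refine ⟨P.part 0, fun i hi => P.part_eq_of_mem (hm 0) hi, fun i hi => ?_⟩
  have hne : ∀ j, j ∉ P.part 0 → P.part j ≠ P.part 0 := fun j hj h => hj (h ▸ hs j)
  have hi' := mem_compl.1 hi
  ext j
  rw [mem_compl]
  constructor
  · intro hj hj0
    exact hne i hi' ((P.part_eq_of_mem (hm i) hj).symm.trans (P.part_eq_of_mem (hm 0) hj0))
  · intro hj
    by_contra c
    have hij : P.part j ≠ P.part i := fun h => c (h ▸ hs j)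
    have : 2 < P.parts.card :=
      two_lt_card_iff.2 ⟨_, _, _, hm 0, hm i, hm j, (hne i hi').symm, (hne j hj).symm, hij.symm⟩
    omega

def toP (A : Finset (Fin (ν + 2))) : Finpartition (univ : Finset (Fin (ν + 2))) :=
  Finpartition.ofErase {A, Aᶜ}
    (by
      by_cases h : A = Aᶜ
      · rw [← h]; simp
      · rw [supIndep_pair h]; exact disjoint_compl_right)
    (by simp)

lemma toP_parts (A : Finset (Fin (ν + 2))) : (toP A).parts = ({A, Aᶜ} : Finset _).erase ∅ := rfl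

lemma toP_card (A : Finset (Fin (ν + 2))) : (toP A).parts.card ≤ 2 := by
  rw [toP_parts]
  exact card_erase_le.trans card_le_two

lemma toP_part1 (A : Finset (Fin (ν + 2))) : ∀ i ∈ A, (toP A).part i = A := fun i hi =>
  (toP A).part_eq_of_mem (by
    rw [toP_parts, mem_erase]; exact ⟨ne_empty_of_mem hi, by simp⟩) hi

lemma toP_part2 (A : Finset (Fin (ν + 2))) : ∀ i ∈ Aᶜ, (toP A).part i = Aᶜ := fun i hi =>
  (toP A).part_eq_of_mem (by
    rw [toP_parts, mem_erase]; exact ⟨ne_empty_of_mem hi, by simp⟩) hi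

lemma toP_sorted {v : Fin (ν + 2) → ℝ} (hv : Monotone v) (m : ℕ) (hm : Good v m) :
    IsSorted v (toP (cut ν m)) := by
  have key : ∀ i ∈ cut ν m, ∀ j ∉ cut ν m, v i < v j := by
    intro i hi j hj
    simp only [cut, mem_filter, mem_univ, true_and, not_le] at hi hj
    have := j.2
    rcases hm with h | h
    · omega
    · have h3 := h.2
      unfold g w at h3
      have a : v i ≤ v ⟨min m (ν + 1), by omega⟩ := hv (by rw [Fin.le_def]; simp only; omega)
      have b : v ⟨min (m + 1) (ν + 1), by omega⟩ ≤ v j := hv (by rw [Fin.le_def]; simp only; omega)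
      linarith
  intro C hC i hi j hj l h1 h2
  rw [toP_parts, mem_erase, mem_insert, mem_singleton] at hC
  rcases hC.2 with rfl | rfl
  · by_contra c
    have := max_lt (key i hi l c) (key j hj l c)
    linarith
  · rw [mem_compl] at hi hj ⊢
    intro c
    have := lt_min (key l c i hi) (key l c j hj)
    linarith

theorem main (his : Bool) (n : ℕ) (hn : 2 ≤ n) (v : Fin n → ℝ) (hv : Monotone v) :
    ∃ P : Finpartition (univ : Finset (Fin n)), P.parts.card ≤ 2 ∧ IsSorted v P ∧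
      ∀ Q : Finpartition (univ : Finset (Fin n)), Q.parts.card ≤ 2 → SC his v P ≤ SC his v Q := by
  classical
  obtain ⟨ν, rfl⟩ : ∃ ν, n = ν + 2 := ⟨n - 2, by omega⟩
  obtain ⟨P, hP, hmin⟩ := exists_min_image
    (univ.filter (fun P : Finpartition (univ : Finset (Fin (ν + 2))) =>
      P.parts.card ≤ 2 ∧ IsSorted v P)) (SC his v)
    ⟨toP (cut ν (ν + 1)), mem_filter.2 ⟨mem_univ _, toP_card _, toP_sorted hv _ (Or.inl rfl)⟩⟩
  refine ⟨P, (mem_filter.1 hP).2.1, (mem_filter.1 hP).2.2, fun Q hQ => ?_⟩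
  obtain ⟨B, b1, b2⟩ := exists_set Q hQ
  by_cases hB : Adm his B
  · obtain ⟨m, h1, h2, h3⟩ := main_real hv his B hB
    refine (hmin (toP (cut ν m)) (mem_filter.2 ⟨mem_univ _, toP_card _, toP_sorted hv _ h1⟩)).trans ?_
    rw [(SC_eq his v Q B b1 b2).1 hB, (SC_eq his v _ _ (toP_part1 _) (toP_part2 _)).1 h2]
    exact_mod_cast h3
  · rw [(SC_eq his v Q B b1 b2).2 hB]; exact le_top

end Pool.Agent.H.MP_e22fa6_co
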